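import Pool.Agent.W822.PD.Stm
import Pool.Agent.H984R3.Per.PerBig

set_option autoImplicit false

/-!
BIG: deterministic conclusion for the largest cluster: if the largest cluster is large, does not run
along the boundary layer, and every far reaching strand in the bulk has many pinches, then the outer
boundary of the largest cluster has many pinches.
-/

namespace Pool.Agent.W320.PD

open H974 H984P H342P Finset Pool.Agent.W822.PD Pool.Agent.W92.DP

theorem big_outer {F : Set Edg} {v f g : Vtx} (hf : Outer F v f) (h : DReach Fᶜ f g) :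
    Outer F v g := by
  unfold Outer at hf ⊢
  refine (h.symm.mono ?_).trans hf
  apply Set.compl_subset_compl.2
  intro e he
  exact he.1

theorem big_pin {F : Set Edg} {v w : Vtx} {d : ℤ} {σ : St} (hv : Reach F v σ.1)
    (ho : Outer F v (face σ)) (h : PinA d σ Set.univ F w) : PinO d v F w := by
  obtain ⟨e, v2, u1, u2, he, hends, hr, ⟨hr1, hr2⟩, hfar, hds, hdt⟩ := h
  rw [Set.inter_univ] at he hr hr1 hr2
  rw [← Set.compl_eq_univ_sdiff] at hds hdt
  exact ⟨e, v2, u1, u2, he, hends, hv.trans hr, ⟨hr1, hr2⟩, hfar, big_outer ho hds,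
    big_outer ho hdt⟩

theorem big : PD_BIG := by
  intro t0 c0 E0 a0 n F R R1 m hF hm hR h1 h2 hlay hlow v hv
  classical
  have hm0 : 0 < m := by omega
  obtain ⟨a, b, ha, hb, hmax⟩ := hv
  obtain ⟨c, d, hc, hd, hcd, h8⟩ := hm
  have h8' : 8 * m ^ 2 ≤ dsq a b := h8.trans (hmax c d hc hd hcd)
  have hab : 2 * m ≤ |a.1 - b.1| ∨ 2 * m ≤ |a.2 - b.2| := by
    by_contra hcon
    push Not at hcon
    obtain ⟨h3, h4⟩ := hcon
    unfold dsq at h8'
    have h5 : (a.1 - b.1) ^ 2 < (2 * m) ^ 2 := sq_lt_sq' (by linarith [(abs_lt.1 h3).1]) (abs_lt.1 h3).2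
    have h6 : (a.2 - b.2) ^ 2 < (2 * m) ^ 2 := sq_lt_sq' (by linarith [(abs_lt.1 h4).1]) (abs_lt.1 h4).2
    nlinarith
  have hane : a ≠ b := by
    rintro rfl
    simp only [sub_self, abs_zero] at hab
    omega
  -- every vertex of the cluster is in the box
  have hex : ∃ w, w ≠ v ∧ Reach (↑F : Set Edg) v w := by
    by_cases h3 : a = v
    · exact ⟨b, fun h4 => hane (h3.trans h4.symm), hb⟩
    · exact ⟨a, h3, ha⟩
  have hbox : ∀ w, Reach (↑F : Set Edg) v w → inR 0 n 0 n w := by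
    intro w hw
    by_cases h3 : v = w
    · subst h3
      obtain ⟨w', h4, h5⟩ := hex
      exact pb_box hF h5.symm h4
    · exact pb_box hF hw h3
  -- a leftmost vertex
  obtain ⟨vL, hvL, hleft⟩ : ∃ vL, Reach (↑F : Set Edg) v vL ∧
      ∀ w, Reach (↑F : Set Edg) v w → vL.1 ≤ w.1 := by
    have hne : ∃ k : ℕ, ∃ w, Reach (↑F : Set Edg) v w ∧ w.1 = k := by
      have h3 := hbox v (Reach.refl _ _)
      unfold inR at h3
      exact ⟨v.1.toNat, v, Reach.refl _ _, by omega⟩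
    obtain ⟨w, hw, hwk⟩ := Nat.find_spec hne
    refine ⟨w, hw, fun w' hw' => ?_⟩
    have h3 := hbox w' hw'
    unfold inR at h3
    have h4 : Nat.find hne ≤ w'.1.toNat := Nat.find_min' hne ⟨w', hw', by omega⟩
    omega
  set σ : St := (vL, .nw) with hσ
  have hσ1 : σ.1 = vL := rfl
  have hleft' : ∀ w, Reach (↑F : Set Edg) σ.1 w → σ.1.1 ≤ w.1 := by
    intro w hw
    exact hleft w (hvL.trans hw)
  have horb : ∀ s, Reach (↑F : Set Edg) v (orb (↑F) σ s).1 := fun s =>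
    hvL.trans (pb_reach (↑F) σ s)
  have hextA := orb_extent (F := F) (σ := σ) rfl hleft' (hvL.symm.trans ha)
  have hextB := orb_extent (F := F) (σ := σ) rfl hleft' (hvL.symm.trans hb)
  -- two far apart states
  obtain ⟨t1, t2, ht12, hfar⟩ : ∃ t1 t2 : ℕ, t1 ≤ t2 ∧
      (2 * m ≤ |(orb (↑F) σ t1).1.1 - (orb (↑F) σ t2).1.1| ∨
        2 * m ≤ |(orb (↑F) σ t1).1.2 - (orb (↑F) σ t2).1.2|) := by
    have hsym : (∃ t1 t2 : ℕ, (2 * m ≤ |(orb (↑F) σ t1).1.1 - (orb (↑F) σ t2).1.1| ∨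
        2 * m ≤ |(orb (↑F) σ t1).1.2 - (orb (↑F) σ t2).1.2|)) → ∃ t1 t2 : ℕ, t1 ≤ t2 ∧
      (2 * m ≤ |(orb (↑F) σ t1).1.1 - (orb (↑F) σ t2).1.1| ∨
        2 * m ≤ |(orb (↑F) σ t1).1.2 - (orb (↑F) σ t2).1.2|) := by
      rintro ⟨t1, t2, h⟩
      rcases le_total t1 t2 with h3 | h3
      · exact ⟨t1, t2, h3, h⟩
      · refine ⟨t2, t1, h3, ?_⟩
        rw [abs_sub_comm, abs_sub_comm (orb (↑F) σ t2).1.2]
        exact h
    apply hsym
    obtain ⟨⟨ta, hta⟩, ⟨ta2, hta2⟩, ⟨ta3, hta3⟩⟩ := hextA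
    obtain ⟨⟨tb, htb⟩, ⟨tb2, htb2⟩, ⟨tb3, htb3⟩⟩ := hextB
    have hla := hleft a ha
    have hlb := hleft b hb
    have h0 : (orb (↑F) σ 0).1.1 = vL.1 := rfl
    rcases hab with h3 | h3
    · rcases abs_cases (a.1 - b.1) with ⟨h4, h5⟩ | ⟨h4, h5⟩
      · refine ⟨ta, 0, Or.inl ?_⟩
        rw [h0]
        have := le_abs_self ((orb (↑F) σ ta).1.1 - vL.1)
        omega
      · refine ⟨tb, 0, Or.inl ?_⟩
        rw [h0]
        have := le_abs_self ((orb (↑F) σ tb).1.1 - vL.1)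
        omega
    · rcases abs_cases (a.2 - b.2) with ⟨h4, h5⟩ | ⟨h4, h5⟩
      · refine ⟨ta2, tb3, Or.inr ?_⟩
        have := le_abs_self ((orb (↑F) σ ta2).1.2 - (orb (↑F) σ tb3).1.2)
        omega
      · refine ⟨tb2, ta3, Or.inr ?_⟩
        have := le_abs_self ((orb (↑F) σ tb2).1.2 - (orb (↑F) σ ta3).1.2)
        omega
  obtain ⟨T, rfl⟩ : ∃ T, t2 = T + t1 := ⟨t2 - t1, by omega⟩
  rw [orb_add] at hfar
  set σ1 : St := orb (↑F) σ t1 with hσ1'
  obtain ⟨s, hsT, hs⟩ := pb_leave hlay (σ := σ1) (T := T) (by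
    rcases hfar with h | h
    · exact Or.inl (by omega)
    · exact Or.inr (by omega))
  set σ' : St := orb (↑F) σ1 s with hσ'
  have hσ'' : σ' = orb (↑F) σ (s + t1) := by rw [orb_add]
  -- the orbit of `σ'` goes far
  have hgo : ∃ t, Far σ'.1 R (orb (↑F) σ' t).1 := by
    obtain ⟨p, hp, hpσ⟩ := pb_period (n := n) (F := (↑F : Set Edg)) (σ := σ1) (by
      intro s'
      have := horb (s' + t1)
      rw [orb_add] at this
      exact hbox _ this)
    have hback : orb (↑F : Set Edg) σ' (s * p - s) = σ1 := by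
      rw [hσ', ← orb_add]
      have : s * p - s + s = s * p := Nat.sub_add_cancel (Nat.le_mul_of_pos_right s hp)
      rw [this]
      exact pb_period_mul hpσ s
    have hfwd : orb (↑F : Set Edg) σ' (T - s) = orb (↑F) σ1 T := by
      rw [hσ', ← orb_add, Nat.sub_add_cancel hsT]
    by_contra hcon
    push Not at hcon
    have h3 := hcon (s * p - s)
    have h4 := hcon (T - s)
    rw [hback] at h3
    rw [hfwd] at h4
    unfold Far at h3 h4
    push Not at h3 h4
    rcases hfar with h | h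
    · rcases abs_cases (σ1.1.1 - (orb (↑F) σ1 T).1.1) with ⟨h5, -⟩ | ⟨h5, -⟩ <;> omega
    · rcases abs_cases (σ1.1.2 - (orb (↑F) σ1 T).1.2) with ⟨h5, -⟩ | ⟨h5, -⟩ <;> omega
  have hpin : RPin t0 c0 E0 a0 σ' Set.univ (↑F) := by
    by_contra hcon
    exact hlow ⟨σ', hs, hgo, hcon⟩
  have hvLbox := hbox vL hvL
  unfold inR at hvLbox
  have hout := outer_left hF (σ := σ) rfl hleft' hvLbox.1.1 hvLbox.2.1
  have hEC : EC (↑F : Set Edg) v = EC (↑F) vL := by
    unfold EC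
    ext e
    constructor
    · rintro ⟨he, h3⟩
      exact ⟨he, hvL.symm.trans h3⟩
    · rintro ⟨he, h3⟩
      exact ⟨he, hvL.trans h3⟩
  have hout' : Outer (↑F) v (face σ') := by
    unfold Outer at hout ⊢
    rw [hEC]
    have h3 := pb_dreach (↑F) σ (s + t1)
    rw [← hσ''] at h3
    refine (h3.symm.mono ?_).trans hout
    apply Set.compl_subset_compl.2
    intro e he
    exact he.1
  obtain ⟨V, hc', hE', hV⟩ := hpin
  exact ⟨V, hc', hE', fun w hw => big_pin (by rw [hσ'']; exact horb _) hout' (hV w hw)⟩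

end Pool.Agent.W320.PD
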