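import Pool.Agent.W822.PD.Stm
import Pool.Agent.H984R3.Per.LowThm
import Pool.Agent.H973R2.Exp3

set_option autoImplicit false

/-!
An arm from a box at the boundary of the square: exponent `1/3`.
-/

namespace Pool.Agent.W320.PD.HB

open H974 H973 H984P H342P Finset Pool.Agent.W822.PD

/-! ### half circuits -/

/-- Three crossings around a half annulus. -/
def HC (R1 R2 : ℤ) (F : Finset Edg) : Prop :=
  LRc (-R2) R2 R1 R2 F ∧ (TBc R1 R2 0 R2 F ∧ TBc (-R2) (-R1) 0 R2 F)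

theorem HC_incr (S : Finset Edg) (R1 R2 : ℤ) : IncrE S (HC R1 R2) :=
  fun _ _ h _ hF => ⟨hF.1.mono h, hF.2.1.mono h, hF.2.2.mono h⟩

theorem hc_meet {F : Finset Edg} {R1 R2 : ℤ} (h1 : 0 < R1) (h2 : R1 < R2)
    (h : HC R1 R2 F) : ∃ z : Vtx, ∀ u v : Vtx, inR (-R1) R1 0 R1 u →
      (v.1 = -R2 ∨ v.1 = R2 ∨ v.2 = R2) →
      Reach (↑F ∩ ↑(RE (-R2) R2 0 R2)) u v → Reach (↑F ∩ ↑(RE (-R2) R2 0 R2)) u z := by
  obtain ⟨⟨t, t', ht, ht', hT⟩, ⟨r, r', hr, hr', hR⟩, ⟨l, l', hl, hl', hL⟩⟩ := h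
  have hT' := hT.mono (Set.inter_subset_inter_right (↑F)
    (by exact_mod_cast LRE_subset_RE : (↑(LRE (-R2) R2 R1 R2) : Set Edg) ⊆ _))
  have hR' := hR.mono (Set.inter_subset_inter_right (↑F)
    (by exact_mod_cast TBE_subset_RE : (↑(TBE R1 R2 0 R2) : Set Edg) ⊆ _))
  have hL' := hL.mono (Set.inter_subset_inter_right (↑F)
    (by exact_mod_cast TBE_subset_RE : (↑(TBE (-R2) (-R1) 0 R2) : Set Edg) ⊆ _))
  have mTR : Reach (↑F ∩ ↑(RE (-R2) R2 0 R2)) (-R2, t) (r, 0) :=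
    cross_meet (by omega) h2 le_rfl (by omega) h2 le_rfl hT' (by simp only; omega) le_rfl hR'
      (by simp only; omega) le_rfl
  have mTL : Reach (↑F ∩ ↑(RE (-R2) R2 0 R2)) (-R2, t) (l, 0) :=
    cross_meet le_rfl (by omega) (by omega) (by omega) h2 le_rfl hT' le_rfl (by simp only; omega)
      hL' (by simp only; omega) le_rfl
  refine ⟨(r, 0), ?_⟩
  intro u v hu hv hP
  unfold inR at hu
  rcases hv with hv | hv | hv
  · have m : Reach (↑F ∩ ↑(RE (-R2) R2 0 R2)) v (l, 0) :=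
      cross_meet le_rfl (by omega) (by omega) le_rfl (by omega) le_rfl hP.symm hv.le
        (show -R1 ≤ u.1 by omega) hL' le_rfl le_rfl
    exact hP.trans (m.trans (mTL.symm.trans mTR))
  · exact cross_meet (by omega) h2 le_rfl le_rfl (by omega) le_rfl hP (by omega) hv.ge hR' le_rfl
      le_rfl
  · have m : Reach (↑F ∩ ↑(RE (-R2) R2 0 R2)) (-R2, t) u :=
      cross_meet le_rfl (by omega) le_rfl (by omega) h2 le_rfl hT' le_rfl le_rfl hP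
        (by omega) hv.ge
    exact m.symm.trans mTR

theorem pr_HC {ρ : ℤ} (hρ : 0 < ρ) {S : Finset Edg}
    (hS : RE (-(3 * ρ)) (3 * ρ) 0 (3 * ρ) ⊆ S) :
    dlt * (dlt * dlt) ≤ Pr (fun _ => (1/2 : ℝ)) S (HC ρ (3 * ρ)) := by
  have hd0 := dlt_pos
  have s1 : LRE (-(3 * ρ)) (3 * ρ) ρ (3 * ρ) ⊆ S :=
    LRE_subset_RE.trans ((RE_subset le_rfl le_rfl (by omega) le_rfl).trans hS)
  have s2 : TBE ρ (3 * ρ) 0 (3 * ρ) ⊆ S :=
    TBE_subset_RE.trans ((RE_subset (by omega) le_rfl le_rfl le_rfl).trans hS)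
  have s3 : TBE (-(3 * ρ)) (-ρ) 0 (3 * ρ) ⊆ S :=
    TBE_subset_RE.trans ((RE_subset le_rfl (by omega) le_rfl le_rfl).trans hS)
  have p1 : dlt ≤ Pr (fun _ => (1/2 : ℝ)) S (LRc (-(3 * ρ)) (3 * ρ) ρ (3 * ρ)) := by
    rw [pr_LRc (1/2) s1]
    exact rswL (m := ρ) hρ (by omega) (by omega) (by omega)
  have p2 : dlt ≤ Pr (fun _ => (1/2 : ℝ)) S (TBc ρ (3 * ρ) 0 (3 * ρ)) := by
    rw [pr_TBc (1/2) s2]
    exact rswL (m := ρ) hρ (by omega) (by omega) (by omega)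
  have p3 : dlt ≤ Pr (fun _ => (1/2 : ℝ)) S (TBc (-(3 * ρ)) (-ρ) 0 (3 * ρ)) := by
    rw [pr_TBc (1/2) s3]
    exact rswL (m := ρ) hρ (by omega) (by omega) (by omega)
  have i1 := Pr_harris okhalf (TBc_incr S ρ (3 * ρ) 0 (3 * ρ))
    (TBc_incr S (-(3 * ρ)) (-ρ) 0 (3 * ρ))
  have c1 : IncrE S (fun F => TBc ρ (3 * ρ) 0 (3 * ρ) F ∧ TBc (-(3 * ρ)) (-ρ) 0 (3 * ρ) F) :=
    fun F G hFG _ hF => ⟨hF.1.mono hFG, hF.2.mono hFG⟩
  have i2 := Pr_harris okhalf (LRc_incr S (-(3 * ρ)) (3 * ρ) ρ (3 * ρ)) c1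
  refine le_trans ?_ i2
  refine mul_le_mul p1 (le_trans ?_ i1) (by positivity) (hd0.le.trans p1)
  exact mul_le_mul p2 p3 hd0.le (hd0.le.trans p2)

/-! ### the arm from the box -/

/-- The box of radius `ρ` at `x` is connected to distance `k` in the upper half-plane. -/
def BA (x : Vtx) (ρ k : ℤ) (F : Finset Edg) : Prop :=
  ∃ u w : Vtx, inR (x.1 - ρ) (x.1 + ρ) x.2 (x.2 + ρ) u ∧
    inR (x.1 - k) (x.1 + k) x.2 (x.2 + k) w ∧
    (w.1 = x.1 - k ∨ w.1 = x.1 + k ∨ w.2 = x.2 + k) ∧ Reach (↑F : Set Edg) u w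

theorem BA_mono {x : Vtx} {ρ k : ℤ} {F G : Finset Edg} (h : F ⊆ G) (hF : BA x ρ k F) :
    BA x ρ k G := by
  obtain ⟨u, w, h1, h2, h3, h4⟩ := hF
  exact ⟨u, w, h1, h2, h3, h4.mono (by exact_mod_cast h)⟩

/-- The half box. -/
noncomputable def T (k : ℤ) : Finset Vtx := HB 0 (-1) k

theorem mem_T {k : ℤ} {y : Vtx} : y ∈ T k ↔ (-k ≤ y.1 ∧ y.1 ≤ k) ∧ (0 ≤ y.2 ∧ y.2 ≤ k) := by
  unfold T
  rw [mem_HB]
  constructor
  · rintro ⟨⟨h1, h2, h3⟩, h4⟩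
    have h5 : (0:ℝ) ≤ (y.2 : ℝ) := by linarith
    exact ⟨h1, by exact_mod_cast h5, h3⟩
  · rintro ⟨h1, h2, h3⟩
    have h5 : (0:ℝ) ≤ (y.2 : ℝ) := by exact_mod_cast h2
    exact ⟨⟨h1, by omega, h3⟩, by linarith⟩

theorem ES_T (k : ℤ) : ES (T k) = RE (-k) k 0 k := by
  ext e
  rw [mem_ES, mem_T, mem_T]
  constructor
  · rintro ⟨h1, h2⟩
    exact mem_RE_of_ends h1 h2
  · intro h
    exact mem_RE_ends h

theorem reach_P {G : Set Edg} {P : Vtx → Prop} (hG : ∀ e ∈ G, P (src e) ∧ P (tgt e)) {u v : Vtx}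
    (hu : P u) (h : Reach G u v) : P v := by
  induction h with
  | refl => exact hu
  | tail _ hs _ =>
    obtain ⟨e, he, hc⟩ := hs
    have := hG e he
    rcases hc with ⟨h1, h2⟩ | ⟨h1, h2⟩
    · rw [← h2]; exact this.2
    · rw [← h1]; exact this.1

theorem reach_P' {G : Set Edg} {P : Vtx → Prop} (hG : ∀ e ∈ G, P (src e) ∧ P (tgt e)) {u v : Vtx}
    (hne : u ≠ v) (h : Reach G u v) : P u ∧ P v := by
  have hu : P u := by
    rcases Relation.ReflTransGen.cases_head h with h1 | ⟨c, hc, -⟩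
    · exact absurd h1 hne
    · obtain ⟨e, he, h2⟩ := hc
      have h3 := hG e he
      rcases h2 with ⟨h2, -⟩ | ⟨-, h2⟩
      · rw [← h2]; exact h3.1
      · rw [← h2]; exact h3.2
  exact ⟨hu, reach_P hG hu h⟩

theorem glue {F : Finset Edg} {ρ k : ℤ} (hρ : 0 < ρ) (hk : 3 * ρ ≤ k)
    (hF : F ⊆ RE (-k) k 0 k)
    (h1 : armC (T (3 * ρ)) (0, 0) (3 * ρ) (F ∩ ES (T (3 * ρ)))) (h2 : HC ρ (3 * ρ) F)
    (h3 : BA (0, 0) ρ k F) : armC (T k) (0, 0) k F := by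
  obtain ⟨z, hz⟩ := hc_meet hρ (by omega) h2
  obtain ⟨v, hv, hvb, hr⟩ := h1
  obtain ⟨u', v', hu', hv', hvb', hr'⟩ := h3
  rw [mem_T] at hv
  unfold onBX at hvb
  simp only at hvb
  unfold inR at hu' hv'
  simp only at hu' hv' hvb'
  rw [ES_T] at hr
  have m1 := hz (0, 0) v (by unfold inR; simp only; omega) (by omega)
    (hr.mono (by rw [Finset.coe_inter]))
  obtain ⟨w, k1, k2, k3⟩ := first_exit (a := -(3 * ρ)) (b := 3 * ρ) (c := -(3 * ρ)) (d := 3 * ρ)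
    (u := u') (by unfold inR; omega) hr' (by omega)
  have hends : ∀ e ∈ F, 0 ≤ (src e).2 ∧ 0 ≤ (tgt e).2 := by
    intro e he
    have := mem_RE_ends (hF he)
    unfold inR at this
    omega
  have hsub : (↑F : Set Edg) ∩ ↑(RE (-(3 * ρ)) (3 * ρ) (-(3 * ρ)) (3 * ρ)) ⊆
      ↑F ∩ ↑(RE (-(3 * ρ)) (3 * ρ) 0 (3 * ρ)) := by
    rintro e ⟨he1, he2⟩
    refine ⟨he1, ?_⟩
    rw [Finset.mem_coe] at he1 he2 ⊢
    have h4 := mem_RE_ends he2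
    have h5 := hends e he1
    unfold inR at h4
    exact mem_RE_of_ends (by unfold inR; omega) (by unfold inR; omega)
  have k4 : inR (-(3 * ρ)) (3 * ρ) 0 (3 * ρ) w := by
    refine reach_P (P := inR (-(3 * ρ)) (3 * ρ) 0 (3 * ρ)) (fun e he => ?_) ?_ (k3.mono hsub)
    · exact mem_RE_ends (Finset.mem_coe.1 he.2)
    · unfold inR
      omega
  have m2 := hz u' w (by unfold inR; omega) (by unfold inR at k4; omega) (k3.mono hsub)
  have hs2 : (↑F : Set Edg) ∩ ↑(RE (-(3 * ρ)) (3 * ρ) 0 (3 * ρ)) ⊆ ↑F := Set.inter_subset_left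
  refine ⟨v', ?_, ?_, (m1.mono hs2).trans ((m2.mono hs2).symm.trans hr')⟩
  · rw [mem_T]; omega
  · unfold onBX; simp only; omega

theorem pr_HC' : ∃ D : ℝ, 0 < D ∧ ∀ (ρ : ℤ) (S : Finset Edg), 0 < ρ →
    RE (-(3 * ρ)) (3 * ρ) 0 (3 * ρ) ⊆ S → D ≤ Pr (fun _ => (1/2 : ℝ)) S (HC ρ (3 * ρ)) :=
  ⟨dlt * (dlt * dlt), mul_pos dlt_pos (mul_pos dlt_pos dlt_pos), fun _ _ hρ hS => pr_HC hρ hS⟩

theorem alg {c C D a pk PB r k : ℝ} (hc : 0 < c) (hD : 0 < D) (hr : 0 < r) (hk : 0 < k)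
    (hPB : 0 ≤ PB) (h1 : c ≤ (3 * r) ^ ((1:ℝ) / 3) * a) (h2 : k ^ ((1:ℝ) / 3) * pk ≤ C)
    (h3 : a * D * PB ≤ pk) :
    PB ≤ (3:ℝ) ^ ((1:ℝ) / 3) * C / (c * D) * (r / k) ^ ((1:ℝ) / 3) := by
  have hk3 : 0 < k ^ ((1:ℝ) / 3) := Real.rpow_pos_of_pos hk _
  have hr3 : 0 < r ^ ((1:ℝ) / 3) := Real.rpow_pos_of_pos hr _
  have h33 : 0 < (3:ℝ) ^ ((1:ℝ) / 3) := Real.rpow_pos_of_pos (by norm_num) _
  rw [Real.mul_rpow (by norm_num) hr.le] at h1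
  rw [Real.div_rpow hr.le hk.le, div_mul_div_comm, le_div_iff₀ (by positivity)]
  calc PB * (c * D * k ^ ((1:ℝ) / 3)) = c * (D * PB * k ^ ((1:ℝ) / 3)) := by ring
    _ ≤ ((3:ℝ) ^ ((1:ℝ) / 3) * r ^ ((1:ℝ) / 3) * a) * (D * PB * k ^ ((1:ℝ) / 3)) :=
        mul_le_mul_of_nonneg_right h1 (by positivity)
    _ = ((3:ℝ) ^ ((1:ℝ) / 3) * r ^ ((1:ℝ) / 3)) * (k ^ ((1:ℝ) / 3) * (a * D * PB)) := by ring
    _ ≤ ((3:ℝ) ^ ((1:ℝ) / 3) * r ^ ((1:ℝ) / 3)) * (k ^ ((1:ℝ) / 3) * pk) :=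
        mul_le_mul_of_nonneg_left (mul_le_mul_of_nonneg_left h3 hk3.le) (by positivity)
    _ ≤ ((3:ℝ) ^ ((1:ℝ) / 3) * r ^ ((1:ℝ) / 3)) * C :=
        mul_le_mul_of_nonneg_left h2 (by positivity)
    _ = _ := by ring

theorem fkg (D : ℝ) (hD : ∀ (ρ : ℤ) (S : Finset Edg), 0 < ρ →
    RE (-(3 * ρ)) (3 * ρ) 0 (3 * ρ) ⊆ S → D ≤ Pr (fun _ => (1/2 : ℝ)) S (HC ρ (3 * ρ)))
    {ρ k : ℤ} (hρ0 : 0 < ρ) (hkz : 3 * ρ ≤ k) :
    armP (T (3 * ρ)) (3 * ρ) * D * Pr (fun _ => (1/2 : ℝ)) (RE (-k) k 0 k) (BA (0, 0) ρ k) ≤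
      armP (T k) k := by
  set S : Finset Edg := RE (-k) k 0 k with hS
  have hsub : RE (-(3 * ρ)) (3 * ρ) 0 (3 * ρ) ⊆ S :=
    RE_subset (by omega) (by omega) le_rfl (by omega)
  have hA : Pr (fun _ => (1/2 : ℝ)) S
      (fun F => armC (T (3 * ρ)) (0, 0) (3 * ρ) (F ∩ ES (T (3 * ρ)))) =
      armP (T (3 * ρ)) (3 * ρ) :=
    Pr_restrict (by rw [ES_T]; exact hsub) (armC (T (3 * ρ)) (0, 0) (3 * ρ))
  have hH := hD ρ S hρ0 hsub
  have cA : IncrE S (fun F => armC (T (3 * ρ)) (0, 0) (3 * ρ) (F ∩ ES (T (3 * ρ)))) :=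
    fun F G hFG _ hF => hF.mono (Finset.Subset.refl _) (Finset.inter_subset_inter_right hFG)
  have cAH : IncrE S (fun F => armC (T (3 * ρ)) (0, 0) (3 * ρ) (F ∩ ES (T (3 * ρ))) ∧
      HC ρ (3 * ρ) F) := fun F G hFG hG hF => ⟨cA F G hFG hG hF.1, HC_incr S _ _ F G hFG hG hF.2⟩
  have cB : IncrE S (BA (0, 0) ρ k) := fun F G hFG _ hF => BA_mono hFG hF
  have i1 := Pr_harris okhalf cA (HC_incr S ρ (3 * ρ))
  have i2 := Pr_harris okhalf cAH cB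
  have i3 : Pr (fun _ => (1/2 : ℝ)) S (fun F =>
      (armC (T (3 * ρ)) (0, 0) (3 * ρ) (F ∩ ES (T (3 * ρ))) ∧ HC ρ (3 * ρ) F) ∧
      BA (0, 0) ρ k F) ≤ Pr (fun _ => (1/2 : ℝ)) S (armC (T k) (0, 0) k) := by
    apply Pr_mono okhalf
    intro F hF h
    exact glue hρ0 hkz hF h.1.1 h.1.2 h.2
  have e4 : Pr (fun _ => (1/2 : ℝ)) S (armC (T k) (0, 0) k) = armP (T k) k := by
    unfold armP
    rw [ES_T]
  have hPB0 : 0 ≤ Pr (fun _ => (1/2 : ℝ)) S (BA (0, 0) ρ k) := Pr_nonneg okhalf _ _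
  have ha0 : 0 ≤ armP (T (3 * ρ)) (3 * ρ) := armP_nonneg _ _
  rw [hA] at i1
  rw [e4] at i3
  refine le_trans (mul_le_mul_of_nonneg_right (mul_le_mul_of_nonneg_left hH ha0) hPB0) ?_
  exact (mul_le_mul_of_nonneg_right i1 hPB0).trans (i2.trans i3)

theorem base : ∃ C : ℝ, 0 < C ∧ ∀ ρ k : ℕ, 1 ≤ ρ → 3 * ρ ≤ k →
    Pr (fun _ => (1/2 : ℝ)) (RE (-k) k 0 k) (BA (0, 0) ρ k) ≤
      C * ((ρ:ℝ) / k) ^ ((1:ℝ) / 3) := by
  obtain ⟨c, C, hc, hC, hE⟩ := exponents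
  obtain ⟨D, hD, hDD⟩ := pr_HC'
  refine ⟨(3:ℝ) ^ ((1:ℝ) / 3) * C / (c * D), by positivity, ?_⟩
  intro ρ k hρ hk
  have hρ0 : (0:ℤ) < ρ := by exact_mod_cast hρ
  have hkz : 3 * (ρ:ℤ) ≤ k := by exact_mod_cast hk
  have hρr : (0:ℝ) < ρ := by exact_mod_cast hρ
  have hkr : (0:ℝ) < k := by
    have : 0 < k := by omega
    exact_mod_cast this
  have ha := ((hE (3 * ρ) (by omega)).2 0 (-1) (Or.inr (by norm_num))).1
  have hkk := ((hE k (by omega)).2 0 (-1) (Or.inr (by norm_num))).2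
  rw [Nat.cast_mul, Nat.cast_ofNat] at ha
  rw [Nat.cast_mul, Nat.cast_ofNat] at ha
  exact alg hc hD hρr hkr (Pr_nonneg okhalf _ _) ha hkk (fkg D hDD hρ0 hkz)

/-! ### translation and comparison -/

/-- The event. -/
def Ev (x : Vtx) (ρ k : ℤ) (F : Finset Edg) : Prop := ∃ u v : Vtx,
  inR (x.1 - ρ) (x.1 + ρ) (x.2 - ρ) (x.2 + ρ) u ∧ Far x k v ∧ Reach (↑F : Set Edg) u v

theorem Ev_BA {x : Vtx} {ρ k : ℤ} (hρ : 0 < ρ) (hk : ρ < k) {S F : Finset Edg}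
    (hS : ∀ e ∈ S, x.2 ≤ (src e).2 ∧ x.2 ≤ (tgt e).2) (hF : F ⊆ S) (h : Ev x ρ k F) :
    BA x ρ k (F ∩ RE (x.1 - k) (x.1 + k) x.2 (x.2 + k)) := by
  obtain ⟨u, v, hu, hv, hr⟩ := h
  have hG : ∀ e ∈ (↑F : Set Edg), x.2 ≤ (src e).2 ∧ x.2 ≤ (tgt e).2 := fun e he =>
    hS e (hF (Finset.mem_coe.1 he))
  have hne : u ≠ v := by
    rintro rfl
    unfold inR at hu
    unfold Far at hv
    omega
  obtain ⟨hu2, hv2⟩ := reach_P' (P := fun y => x.2 ≤ y.2) hG hne hr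
  unfold inR at hu
  unfold Far at hv
  obtain ⟨w, k1, k2, k3⟩ := first_exit (a := x.1 - k) (b := x.1 + k) (c := x.2 - k)
    (d := x.2 + k) (u := u) (by unfold inR; omega) hr (by omega)
  have hsub : (↑F : Set Edg) ∩ ↑(RE (x.1 - k) (x.1 + k) (x.2 - k) (x.2 + k)) ⊆
      ↑(F ∩ RE (x.1 - k) (x.1 + k) x.2 (x.2 + k)) := by
    rintro e ⟨he1, he2⟩
    rw [Finset.mem_coe] at he1 he2 ⊢
    rw [Finset.mem_inter]
    have h4 := mem_RE_ends he2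
    have h5 := hS e (hF he1)
    unfold inR at h4
    exact ⟨he1, mem_RE_of_ends (by unfold inR; omega) (by unfold inR; omega)⟩
  have hw2 : x.2 ≤ w.2 := reach_P (P := fun y => x.2 ≤ y.2) hG hu2
    (k3.mono Set.inter_subset_left)
  unfold inR at k1
  exact ⟨u, w, by unfold inR; omega, by unfold inR; omega, by omega, k3.mono hsub⟩

theorem BA_trl {x : Vtx} {ρ k : ℤ} {F : Finset Edg} (h : BA x ρ k ((trl x.1 x.2).mp F)) :
    BA (0, 0) ρ k F := by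
  have hr : ∀ y z : Vtx, Reach (↑((trl x.1 x.2).mp F) : Set Edg) (y.1 + x.1, y.2 + x.2)
      (z.1 + x.1, z.2 + x.2) ↔ Reach (F : Set Edg) y z := by
    intro y z
    rw [LSym.coe_mp]
    exact (trl x.1 x.2).reach_iff (F := (F : Set Edg)) (u := y) (v := z)
  obtain ⟨u, w, h1, h2, h3, h4⟩ := h
  unfold inR at h1 h2
  refine ⟨(u.1 - x.1, u.2 - x.2), (w.1 - x.1, w.2 - x.2), ?_, ?_, ?_, ?_⟩
  · unfold inR; simp only; omega
  · unfold inR; simp only; omega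
  · simp only; omega
  · rw [← hr]
    simp only [sub_add_cancel]
    exact h4

theorem half : ∃ C : ℝ, 0 < C ∧ ∀ (ρ k : ℕ) (x : Vtx) (S : Finset Edg), 1 ≤ ρ → ρ ≤ k →
    (∀ e ∈ S, x.2 ≤ (src e).2 ∧ x.2 ≤ (tgt e).2) →
    Pr (fun _ => (1/2 : ℝ)) S (Ev x ρ k) ≤ C * ((ρ:ℝ) / k) ^ ((1:ℝ) / 3) := by
  obtain ⟨C, hC, hb⟩ := base
  refine ⟨max C 3, lt_max_of_lt_left hC, ?_⟩
  intro ρ k x S hρ hk hS
  have hρr : (0:ℝ) < ρ := by exact_mod_cast hρ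
  have hkr : (0:ℝ) < k := by
    have : 0 < k := by omega
    exact_mod_cast this
  rcases Nat.lt_or_ge k (3 * ρ) with h | h
  · refine (Pr_le_one okhalf _ _).trans ?_
    have h1 : (1:ℝ) / 3 ≤ (ρ:ℝ) / k := by
      rw [div_le_div_iff₀ (by norm_num) hkr]
      have : (k:ℝ) ≤ 3 * ρ := by exact_mod_cast h.le
      linarith
    have h2 : ((1:ℝ) / 3) ≤ ((ρ:ℝ) / k) ^ ((1:ℝ) / 3) := by
      calc (1:ℝ) / 3 = ((1:ℝ) / 3) ^ (1 : ℝ) := (Real.rpow_one _).symm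
        _ ≤ ((1:ℝ) / 3) ^ ((1:ℝ) / 3) :=
            Real.rpow_le_rpow_of_exponent_ge (by norm_num) (by norm_num) (by norm_num)
        _ ≤ _ := Real.rpow_le_rpow (by norm_num) h1 (by norm_num)
    calc (1:ℝ) = 3 * (1 / 3) := by norm_num
      _ ≤ max C 3 * ((ρ:ℝ) / k) ^ ((1:ℝ) / 3) :=
          mul_le_mul (le_max_right _ _) h2 (by norm_num) (lt_max_of_lt_left hC).le
  · have hρz : (0:ℤ) < ρ := by exact_mod_cast hρ
    have hkz : (ρ:ℤ) < k := by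
      have : ρ < k := by omega
      exact_mod_cast this
    set T' : Finset Edg := RE (x.1 - k) (x.1 + k) x.2 (x.2 + k) with hT'
    have e1 : T' = (trl x.1 x.2).mp (RE (-k) k 0 k) := by
      rw [trl_RE, hT']
      congr 1 <;> ring
    have s1 : Pr (fun _ => (1/2 : ℝ)) S (Ev x ρ k) ≤
        Pr (fun _ => (1/2 : ℝ)) S (fun F => BA x ρ k (F ∩ T')) :=
      Pr_mono okhalf fun F hF h => Ev_BA hρz hkz hS hF h
    have s2 : Pr (fun _ => (1/2 : ℝ)) S (fun F => BA x ρ k (F ∩ T')) =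
        Pr (fun _ => (1/2 : ℝ)) (S ∪ T') (fun F => BA x ρ k ((F ∩ S) ∩ T')) :=
      (Pr_restrict (S := S ∪ T') (S' := S) Finset.subset_union_left
        (fun F => BA x ρ k (F ∩ T'))).symm
    have s3 : Pr (fun _ => (1/2 : ℝ)) (S ∪ T') (fun F => BA x ρ k ((F ∩ S) ∩ T')) ≤
        Pr (fun _ => (1/2 : ℝ)) (S ∪ T') (fun F => BA x ρ k (F ∩ T')) :=
      Pr_mono okhalf fun F _ h =>
        BA_mono (Finset.inter_subset_inter_right Finset.inter_subset_left) h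
    have s4 : Pr (fun _ => (1/2 : ℝ)) (S ∪ T') (fun F => BA x ρ k (F ∩ T')) =
        Pr (fun _ => (1/2 : ℝ)) T' (BA x ρ k) :=
      Pr_restrict (S := S ∪ T') (S' := T') Finset.subset_union_right (BA x ρ k)
    have s5 : Pr (fun _ => (1/2 : ℝ)) T' (BA x ρ k) ≤
        Pr (fun _ => (1/2 : ℝ)) (RE (-k) k 0 k) (BA (0, 0) ρ k) := by
      rw [e1, LSym.pr]
      exact Pr_mono okhalf fun F _ h => BA_trl h
    have s6 := hb ρ k hρ h
    calc Pr (fun _ => (1/2 : ℝ)) S (Ev x ρ k)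
        ≤ C * ((ρ:ℝ) / k) ^ ((1:ℝ) / 3) := by
          rw [s2] at s1
          rw [s4] at s3
          exact s1.trans (s3.trans (s5.trans s6))
      _ ≤ _ := mul_le_mul_of_nonneg_right (le_max_left _ _) (Real.rpow_nonneg (by positivity) _)

/-! ### rotation -/

theorem rot_step (x : Vtx) (ρ k : ℤ) (S : Finset Edg) :
    Pr (fun _ => (1/2 : ℝ)) S (Ev x ρ k) ≤ Pr (fun _ => (1/2 : ℝ)) (rM S) (Ev (rV x) ρ k) := by
  rw [rot_pr]
  refine Pr_mono okhalf fun F _ h => ?_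
  obtain ⟨u, v, h1, h2, h3⟩ := h
  refine ⟨rV u, rV v, ?_, LT_far.2 h2, rot_reach.2 h3⟩
  simp only [inR, rV, Equiv.coe_fn_mk] at h1 ⊢
  omega

theorem hb : PD_HB := by
  obtain ⟨C, hC, h⟩ := half
  refine ⟨C, hC, ?_⟩
  intro n ρ k x hρ hk hx hin
  change Pr (fun _ => (1/2 : ℝ)) (RE 0 n 0 n) (Ev x ρ k) ≤ _
  unfold inR at hin
  have hends : ∀ a b c d : ℤ, ∀ e ∈ RE a b c d, c ≤ (src e).2 ∧ c ≤ (tgt e).2 := by
    intro a b c d e he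
    have := mem_RE_ends he
    unfold inR at this
    omega
  rcases hx with hx | hx | hx | hx
  · -- left side
    refine (rot_step x ρ k _).trans ?_
    rw [rot_RE]
    refine h ρ k _ _ hρ hk ?_
    have e : (rV x).2 = 0 := by simp only [rV, Equiv.coe_fn_mk]; omega
    rw [e]
    exact hends _ _ _ _
  · -- right side
    refine (rot_step x ρ k _).trans ((rot_step _ ρ k _).trans ((rot_step _ ρ k _).trans ?_))
    rw [rot_RE, rot_RE, rot_RE]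
    refine h ρ k _ _ hρ hk ?_
    have e : (rV (rV (rV x))).2 = -n := by simp only [rV, Equiv.coe_fn_mk]; omega
    rw [e]
    exact hends _ _ _ _
  · -- bottom side
    refine h ρ k _ _ hρ hk ?_
    rw [hx]
    exact hends _ _ _ _
  · -- top side
    refine (rot_step x ρ k _).trans ((rot_step _ ρ k _).trans ?_)
    rw [rot_RE, rot_RE]
    refine h ρ k _ _ hρ hk ?_
    have e : (rV (rV x)).2 = -n := by simp only [rV, Equiv.coe_fn_mk]; omega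
    rw [e]
    exact hends _ _ _ _

end Pool.Agent.W320.PD.HB
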