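import Pool.Agent.W822.PD.Stm
import Pool.Agent.H984R3.Per.LowThm

set_option autoImplicit false

/-!
ROT: rotation invariance of the existence of many pinches.
-/

namespace Pool.Agent.W320.PD

open H974 H12S Finset H389NS H984P H984N H342P Pool.Agent.W822.PD Pool.Agent.W92.DP

theorem rot_erase (F : Finset Edg) (e : Edg) :
    (↑(rM F) : Set Edg) \ {rE e} = ↑(rM (F.erase e)) := by
  ext x
  rw [Set.mem_sdiff, Set.mem_singleton_iff, Finset.mem_coe, Finset.mem_coe, p14_mem', p14_mem',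
    Finset.mem_erase]
  constructor
  · rintro ⟨h1, h2⟩
    refine ⟨?_, h1⟩
    intro h3
    exact h2 (by rw [← h3, Equiv.apply_symm_apply])
  · rintro ⟨h1, h2⟩
    refine ⟨h2, ?_⟩
    intro h3
    exact h1 (by rw [h3, Equiv.symm_apply_apply])

theorem rot_main (d : ℤ) (σ : St) (F : Finset Edg) (e : Edg) (v1 v2 u1 u2 : Vtx)
    (he : rE e ∈ (↑(rM F) : Set Edg))
    (hends : (src (rE e) = rV v1 ∧ tgt (rE e) = rV v2) ∨ (src (rE e) = rV v2 ∧ tgt (rE e) = rV v1))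
    (hr : Reach (↑(rM F)) (rS σ).1 (rV v1))
    (hr1 : Reach ((↑(rM F) : Set Edg) \ {rE e}) (rV v1) (rV u1))
    (hr2 : Reach ((↑(rM F) : Set Edg) \ {rE e}) (rV v2) (rV u2))
    (hf1 : Far (rV v1) d (rV u1)) (hf2 : Far (rV v1) d (rV u2))
    (hd3 : DReach (↑(rM F) : Set Edg)ᶜ (face (rS σ)) (dsrc (rE e)))
    (hd4 : DReach (↑(rM F) : Set Edg)ᶜ (face (rS σ)) (dtgt (rE e))) :
    PinA d σ Set.univ (↑F) v1 := by
  unfold PinA
  rw [Set.inter_univ, ← Set.compl_eq_univ_sdiff]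
  rw [rot_face] at hd3 hd4
  rw [rot_erase] at hr1 hr2
  refine ⟨e, v2, u1, u2, ?_, ?_, ?_, ⟨?_, ?_⟩, ⟨?_, ?_⟩, ?_⟩
  · exact Finset.mem_coe.mpr (p14_mem.mp (Finset.mem_coe.mp he))
  · rcases p14_ends e with ⟨h1, h2⟩ | ⟨h1, h2⟩ <;> rw [h1, h2] at hends <;>
      rcases hends with ⟨h3, h4⟩ | ⟨h3, h4⟩ <;>
      have h5 := rV.injective h3 <;> have h6 := rV.injective h4
    · exact Or.inl ⟨h5, h6⟩
    · exact Or.inr ⟨h5, h6⟩
    · exact Or.inr ⟨h6, h5⟩
    · exact Or.inl ⟨h6, h5⟩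
  · exact rot_reach.mp hr
  · have h := rot_reach.mp hr1
    rwa [Finset.coe_erase] at h
  · have h := rot_reach.mp hr2
    rwa [Finset.coe_erase] at h
  · exact LT_far.mp hf1
  · exact LT_far.mp hf2
  · rcases p14_dends e with ⟨h1, h2⟩ | ⟨h1, h2⟩
    · rw [h1] at hd3; rw [h2] at hd4
      exact ⟨rot_dreach.mp hd3, rot_dreach.mp hd4⟩
    · rw [h1] at hd3; rw [h2] at hd4
      exact ⟨rot_dreach.mp hd4, rot_dreach.mp hd3⟩

theorem rot_pinA (d : ℤ) (σ : St) (F : Finset Edg) (v : Vtx)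
    (h : PinA d (rS σ) Set.univ (↑(rM F)) (rV v)) : PinA d σ Set.univ (↑F) v := by
  unfold PinA at h
  rw [Set.inter_univ, ← Set.compl_eq_univ_sdiff] at h
  obtain ⟨e', v2', u1', u2', he, hends, hr, ⟨hr1, hr2⟩, ⟨hf1, hf2⟩, ⟨hd3, hd4⟩⟩ := h
  obtain ⟨e, rfl⟩ := rE.surjective e'
  obtain ⟨v2, rfl⟩ := rV.surjective v2'
  obtain ⟨u1, rfl⟩ := rV.surjective u1'
  obtain ⟨u2, rfl⟩ := rV.surjective u2'
  exact rot_main d σ F e v v2 u1 u2 he hends hr hr1 hr2 hf1 hf2 hd3 hd4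

theorem sd_rot (v w : Vtx) : sd (rV v) (rV w) = sd v w := by
  simp only [sd, rV, Equiv.coe_fn_mk]
  have h : -v.2 - -w.2 = -(v.2 - w.2) := by ring
  rw [h, abs_neg, max_comm]

theorem rot : PD_ROT := by
  intro t c E a σ F h
  obtain ⟨V, hc, hE, hV⟩ := h
  refine ⟨V.map rV.symm.toEmbedding, ?_, ?_, ?_⟩
  · rw [Finset.card_map]
    exact hc
  · refine le_trans (le_of_eq ?_) hE
    unfold EnV
    rw [Finset.sum_map]
    refine Finset.sum_congr rfl fun v _ => ?_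
    rw [Finset.sum_map]
    refine Finset.sum_congr rfl fun w _ => ?_
    have : sd (rV.symm v) (rV.symm w) = sd v w := by
      rw [← sd_rot, Equiv.apply_symm_apply, Equiv.apply_symm_apply]
    simp only [Equiv.coe_toEmbedding, this]
  · intro v hv
    rw [Finset.mem_map] at hv
    obtain ⟨w, hw, rfl⟩ := hv
    apply rot_pinA
    simp only [Equiv.coe_toEmbedding, Equiv.apply_symm_apply]
    exact hV w hw

end Pool.Agent.W320.PD
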